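import Pool.Agent.H560R2.Sum7

/-! The blocks as sets of integers, for three elements with sum zero. Adapted from
`Pool.Agent.H560R2.Sum6`. -/

set_option autoImplicit false
set_option linter.unusedSectionVars false
set_option linter.unusedVariables false

namespace Pool.Agent.K9h36.MZ

open Finset Pool.Agent.H560R2

section emb

variable {m k M : ℕ}

/-- the sign of the kind of an element -/
def sg : Vw m k → ℤ
  | Sum.inl _ => 1
  | Sum.inr (Sum.inl _) => 1
  | Sum.inr (Sum.inr _) => -1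

/-- the integer of an element of block `i` -/
def znum (q : Fin M × Vw m k) : ℤ := sg q.2 * (num q : ℤ)

lemma num_pos (q : Fin M × Vw m k) : 0 < num q := by
  obtain ⟨i, v⟩ := q
  have h := off_lt i v
  unfold num
  rcases v with a | b | c <;> simp only [knd] <;> omega

lemma sg_abs (v : Vw m k) : |sg v| = 1 := by
  rcases v with a | b | c <;> simp [sg]

lemma znum_abs (q : Fin M × Vw m k) : |znum q| = (num q : ℤ) := by
  unfold znum
  rw [abs_mul, sg_abs, one_mul, Nat.abs_cast]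

lemma znum_inj : Function.Injective (znum : Fin M × Vw m k → ℤ) := by
  intro q q' h
  apply num_inj
  have h1 := congrArg abs h
  rw [znum_abs, znum_abs] at h1
  exact_mod_cast h1

/-- the only zero sums, the negative element at the end -/
lemma znum_zero_aux {p q r : Fin M × Vw m k} (hp : sg p.2 = 1) (hq : sg q.2 = 1)
    (hr : sg r.2 = -1) (h : znum p + znum q + znum r = 0) :
    ∃ (i : Fin M) (a b : Fin k → Fin m), r = (i, Sum.inr (Sum.inr (wadd a b))) ∧
      ((p = (i, Sum.inl a) ∧ q = (i, Sum.inr (Sum.inl b))) ∨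
        (q = (i, Sum.inl a) ∧ p = (i, Sum.inr (Sum.inl b)))) := by
  apply num_sum
  unfold znum at h
  rw [hp, hq, hr] at h
  have : (num p : ℤ) + num q = num r := by linarith
  exact_mod_cast this

/-- two negative elements do not occur -/
lemma no_two_neg {p q r : Fin M × Vw m k} (hp : sg p.2 = 1) (hq : sg q.2 = -1)
    (hr : sg r.2 = -1) (h : znum p + znum q + znum r = 0) : False := by
  have h1 : num q + num r = num p := by
    unfold znum at h
    rw [hp, hq, hr] at h
    have : (num q : ℤ) + num r = num p := by linarith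
    exact_mod_cast this
  obtain ⟨i, a, b, rfl, -⟩ := num_sum h1
  simp [sg] at hp

lemma sg_cases (v : Vw m k) : sg v = 1 ∨ sg v = -1 := by
  rcases v with a | b | c <;> simp [sg]

/-- three elements of a block whose sum is zero -/
def Blk (y : Fin M → Set (Vw m k)) : Prop :=
  ∃ (i : Fin M) (a b : Fin k → Fin m), (Sum.inl a : Vw m k) ∈ y i ∧
    (Sum.inr (Sum.inl b) : Vw m k) ∈ y i ∧ (Sum.inr (Sum.inr (wadd a b)) : Vw m k) ∈ y i

lemma blk_of (y : Fin M → Set (Vw m k)) {p q r : Fin M × Vw m k} (hp : p.2 ∈ y p.1)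
    (hq : q.2 ∈ y q.1) (hr : r.2 ∈ y r.1) (h : znum p + znum q + znum r = 0) : Blk y := by
  have main : ∀ {p q r : Fin M × Vw m k}, p.2 ∈ y p.1 → q.2 ∈ y q.1 → r.2 ∈ y r.1 →
      sg p.2 = 1 → sg q.2 = 1 → sg r.2 = -1 → znum p + znum q + znum r = 0 → Blk y := by
    intro p q r hp hq hr s1 s2 s3 h
    obtain ⟨i, a, b, rfl, ⟨rfl, rfl⟩ | ⟨rfl, rfl⟩⟩ := znum_zero_aux s1 s2 s3 h
    · exact ⟨i, a, b, hp, hq, hr⟩
    · exact ⟨i, a, b, hq, hp, hr⟩
  have p0 : (0 : ℤ) < num p := by exact_mod_cast num_pos p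
  have q0 : (0 : ℤ) < num q := by exact_mod_cast num_pos q
  have r0 : (0 : ℤ) < num r := by exact_mod_cast num_pos r
  rcases sg_cases p.2 with s1 | s1 <;> rcases sg_cases q.2 with s2 | s2 <;>
    rcases sg_cases r.2 with s3 | s3
  · exfalso
    unfold znum at h
    rw [s1, s2, s3] at h
    linarith
  · exact main hp hq hr s1 s2 s3 h
  · exact main hp hr hq s1 s3 s2 (by linarith)
  · exact (no_two_neg s1 s2 s3 h).elim
  · exact main hq hr hp s2 s3 s1 (by linarith)
  · exact (no_two_neg s2 s1 s3 (by linarith)).elim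
  · exact (no_two_neg s3 s1 s2 (by linarith)).elim
  · exfalso
    unfold znum at h
    rw [s1, s2, s3] at h
    linarith

open Classical in
/-- the positions -/
noncomputable def locW (m k M : ℕ) : ℤ → Option (Fin M × Vw m k) := fun z =>
  if h : ∃ q : Fin M × Vw m k, znum q = z then some (Classical.choose h) else none

lemma locW_num (q : Fin M × Vw m k) : locW m k M (znum q) = some q := by
  have h : ∃ q' : Fin M × Vw m k, znum q' = znum q := ⟨q, rfl⟩
  unfold locW
  rw [dif_pos h]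
  congr 1
  exact znum_inj (Classical.choose_spec h)

open Classical in
/-- the set of integers -/
noncomputable def setW (y : Fin M → Set (Vw m k)) : Finset ℤ :=
  (univ.filter (fun q : Fin M × Vw m k => q.2 ∈ y q.1)).image znum

lemma mem_setW (y : Fin M → Set (Vw m k)) (z : ℤ) :
    z ∈ setW y ↔ ∃ q : Fin M × Vw m k, q.2 ∈ y q.1 ∧ znum q = z := by
  classical
  unfold setW
  rw [Finset.mem_image]
  constructor
  · rintro ⟨q, hq, h⟩
    exact ⟨q, (Finset.mem_filter.mp hq).2, h⟩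
  · rintro ⟨q, hq, h⟩
    exact ⟨q, Finset.mem_filter.mpr ⟨mem_univ _, hq⟩, h⟩

lemma setW_card (y : Fin M → Set (Vw m k)) : (setW y).card ≤ 3 * (M * (2 * m) ^ k) := by
  classical
  unfold setW
  refine Finset.card_image_le.trans ((Finset.card_filter_le _ _).trans ?_)
  rw [Finset.card_univ, Fintype.card_prod, Fintype.card_sum, Fintype.card_sum, Fintype.card_fun,
    Fintype.card_fun, Fintype.card_fin, Fintype.card_fin, Fintype.card_fin, Fintype.card_fin]
  have h : m ^ k ≤ (2 * m) ^ k := Nat.pow_le_pow_left (by omega) k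
  calc M * (m ^ k + (m ^ k + (2 * m) ^ k)) ≤ M * (3 * (2 * m) ^ k) :=
        Nat.mul_le_mul_left _ (by omega)
    _ = _ := by ring

lemma setW_range (y : Fin M → Set (Vw m k)) (z : ℤ) (hz : z ∈ setW y) :
    |z| ≤ 9 * (hb m k M : ℤ) := by
  obtain ⟨q, -, rfl⟩ := (mem_setW y z).mp hz
  rw [znum_abs]
  exact_mod_cast num_le q

open Classical in
lemma setW_bits (y : Fin M → Set (Vw m k)) :
    (fun z : ℤ => decide (z ∈ setW y)) = Es (locW m k M) y := by
  funext z
  have h : z ∈ setW y ↔ Es (locW m k M) y z = true := by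
    rw [mem_setW]
    constructor
    · rintro ⟨q, hq, rfl⟩
      unfold Es
      rw [locW_num]
      simpa using hq
    · intro h
      unfold Es at h
      rcases hl : locW m k M z with _ | q
      · rw [hl] at h
        simp at h
      · rw [hl] at h
        simp only [decide_eq_true_eq] at h
        refine ⟨q, h, ?_⟩
        unfold locW at hl
        split_ifs at hl with h1
        rw [← Option.some.inj hl]
        exact Classical.choose_spec h1
  by_cases hz : z ∈ setW y
  · rw [decide_eq_true hz, h.mp hz]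
  · rw [decide_eq_false hz]
    by_contra h2
    exact hz (h.mpr ((Bool.not_eq_false _).mp (Ne.symm h2)))

/-- three different elements with sum zero -/
def Zero3 (S : Finset ℤ) : Prop :=
  ∃ a ∈ S, ∃ b ∈ S, ∃ c ∈ S, a ≠ b ∧ a ≠ c ∧ b ≠ c ∧ a + b + c = 0

lemma zero3_setW (y : Fin M → Set (Vw m k)) : Zero3 (setW y) ↔ Blk y := by
  constructor
  · rintro ⟨x, hx, x', hx', x'', hx'', -, -, -, hs⟩
    obtain ⟨p, hp, rfl⟩ := (mem_setW y x).mp hx
    obtain ⟨q, hq, rfl⟩ := (mem_setW y x').mp hx'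
    obtain ⟨r, hr, rfl⟩ := (mem_setW y x'').mp hx''
    exact blk_of y hp hq hr hs
  · rintro ⟨i, a, b, ha, hb', hc⟩
    have hne : ∀ v v' : Vw m k, v ≠ v' → znum (i, v) ≠ znum (i, v') := by
      intro v v' hv h
      exact hv (congrArg Prod.snd (znum_inj h))
    refine ⟨znum (i, (Sum.inl a : Vw m k)), (mem_setW y _).mpr ⟨_, ha, rfl⟩,
      znum (i, (Sum.inr (Sum.inl b) : Vw m k)), (mem_setW y _).mpr ⟨_, hb', rfl⟩,
      znum (i, (Sum.inr (Sum.inr (wadd a b)) : Vw m k)), (mem_setW y _).mpr ⟨_, hc, rfl⟩,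
      hne _ _ (by simp), hne _ _ (by simp), hne _ _ (by simp), ?_⟩
    have h : num (i, (Sum.inl a : Vw m k)) + num (i, (Sum.inr (Sum.inl b) : Vw m k)) =
        num (i, (Sum.inr (Sum.inr (wadd a b)) : Vw m k)) := by
      unfold num
      simp only [knd, off]
      rw [enc_wadd]
      ring
    have h' : (num (i, (Sum.inl a : Vw m k)) : ℤ) + num (i, (Sum.inr (Sum.inl b) : Vw m k)) =
        num (i, (Sum.inr (Sum.inr (wadd a b)) : Vw m k)) := by exact_mod_cast h
    unfold znum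
    simp only [sg]
    linarith

/-- positive inputs have a solution -/
lemma zero3_yes {N' : Type} (sn : N' → Finset (Vw m k)) (i : Fin M) (y : Fin M → N')
    (p : (Fin k → Fin m) × (Fin k → Fin m)) :
    Zero3 (setW (Function.update (stS sn y i) i ((spos p : Finset (Vw m k)) : Set (Vw m k)))) := by
  rw [zero3_setW]
  refine ⟨i, p.1, p.2, ?_, ?_, ?_⟩
  · rw [Function.update_self]
    exact Finset.mem_coe.mpr ((mem_spos0 p _).mpr rfl)
  · rw [Function.update_self]
    exact Finset.mem_coe.mpr ((mem_spos1 p _).mpr rfl)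
  · rw [Function.update_self]
    exact Finset.mem_coe.mpr ((mem_spos2 p _).mpr rfl)

/-- negative inputs have no solution -/
lemma zero3_no {Q : ℕ} [Fact Q.Prime] (y : Fin M → (Fin k → ZMod Q)) (i : ℕ) :
    ¬ Zero3 (setW (stS (fun α : Fin k → ZMod Q => (sneg α : Finset (Vw m k))) y i)) := by
  rw [zero3_setW]
  rintro ⟨j, a, b, h0, h1, h2⟩
  by_cases hj : j.val < i
  · simp only [stS, if_pos hj] at h0 h1 h2
    exact sneg_free (y j) a b (Finset.mem_coe.mp h0) (Finset.mem_coe.mp h1) (Finset.mem_coe.mp h2)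
  · simp only [stS, if_neg hj] at h0
    exact h0

end emb

open Classical in
/-- The main theorem. Adapted from `Pool.Agent.H560R2.sum_hard`. -/
theorem zero_hard (g t b : ℝ) (hg : 0 ≤ g) (ht : 0 ≤ t) (hb : 0 < b) (htg : t + 2 * g < 2) :
    ∃ a : ℝ, 0 < a ∧ ∃ n0 : ℕ, ∀ n : ℕ, n0 ≤ n →
      ∃ (Λ : Type) (_ : Fintype Λ) (_ : Nonempty Λ) (yes no : Λ → Finset ℤ),
        (∀ l, (yes l).card ≤ n ∧ (∀ z ∈ yes l, ((|z| : ℤ) : ℝ) ≤ (n : ℝ) ^ (1 + g + b)) ∧
          Zero3 (yes l)) ∧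
        (∀ l, (no l).card ≤ n ∧ (∀ z ∈ no l, ((|z| : ℤ) : ℝ) ≤ (n : ℝ) ^ (1 + g + b)) ∧
          ¬ Zero3 (no l)) ∧
        ∀ (s : ℕ) (T : Finset (Fin s)) (w : Fin s → ℕ) (ar : ∀ i, Fin (w i) → ℤ ⊕ Fin s)
          (op : ∀ i, (Fin (w i) → ℝ) → ℝ) (θ : ∀ i, Fin (w i) → ℝ)
          (val : (ℤ → Bool) → Fin s → ℝ) (o : Fin s) (τ : ℝ),
          (∀ i j k, ar i j = Sum.inr k → k < i) → (∀ i ∉ T, w i ≤ 2 ∧ Monotone (op i)) →
          (∀ i ∈ T, ∀ z z' : Fin (w i) → ℝ, (∀ j, θ i j ≤ z j ↔ θ i j ≤ z' j) →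
            op i z = op i z') →
          (∀ x i, val x i = op i (fun j => Sum.elim (bit x) (val x) (ar i j))) →
          ((s + ∑ i ∈ T, w i : ℕ) : ℝ) ≤ (n : ℝ) ^ t →
          ((∏ i ∈ T, (w i + 1) : ℕ) : ℝ) ≤ (n : ℝ) ^ g →
          ((univ.filter (fun l : Λ => τ ≤ val (fun z => decide (z ∈ yes l)) o)).card : ℝ) /
              Fintype.card Λ ≤
            ((univ.filter (fun l : Λ => τ ≤ val (fun z => decide (z ∈ no l)) o)).card : ℝ) /
              Fintype.card Λ + (n : ℝ) ^ (-a) := by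
  obtain ⟨h, hpar⟩ := params g t b hg ht hb htg
  obtain ⟨C0, Q, hQ, hC0, hblk⟩ := block_hard h
  obtain ⟨a, ha, n0, hn0⟩ := hpar C0
  refine ⟨a, ha, n0, fun n hn => ?_⟩
  obtain ⟨κ, M, hM, hcard, hrange, herr⟩ := hn0 n hn
  obtain ⟨k, hk⟩ : ∃ k, k = (4 * h + 10) * κ := ⟨_, rfl⟩
  rw [← hk] at hcard hrange herr
  let P : Type := (Fin k → Fin (2 ^ h)) × (Fin k → Fin (2 ^ h))
  let N : Type := Fin k → ZMod Q
  haveI : NeZero Q := ⟨hQ.out.pos.ne'⟩
  haveI : Nonempty (Fin (2 ^ h)) := ⟨⟨0, by positivity⟩⟩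
  haveI : Nonempty P := inferInstance
  haveI : Nonempty N := ⟨fun _ => 0⟩
  haveI : Nonempty (Fin M) := ⟨⟨0, hM⟩⟩
  let sp : P → Finset (Vw (2 ^ h) k) := spos
  let sn : N → Finset (Vw (2 ^ h) k) := fun α => sneg α
  have hrg : ∀ y : Fin M → Set (Vw (2 ^ h) k), ∀ z ∈ setW y,
      ((|z| : ℤ) : ℝ) ≤ (n : ℝ) ^ (1 + g + b) := by
    intro y z hz
    refine le_trans ?_ hrange
    have h3 : ((|z| : ℤ) : ℝ) ≤ ((9 * (Pool.Agent.H560R2.hb (2 ^ h) k M : ℤ) : ℤ) : ℝ) := by
      exact_mod_cast setW_range y z hz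
    refine h3.trans (le_of_eq ?_)
    unfold Pool.Agent.H560R2.hb
    push_cast
    ring
  refine ⟨Fin M × (Fin M → N) × P, inferInstance, inferInstance,
    fun l => setW (Function.update (stS sn l.2.1 l.1) l.1 (sp l.2.2 : Set _)),
    fun l => setW (stS sn l.2.1 (l.1 + 1)), ?_, ?_, ?_⟩
  · intro l
    exact ⟨(setW_card _).trans hcard, hrg _, zero3_yes sn l.1 l.2.1 l.2.2⟩
  · intro l
    exact ⟨(setW_card _).trans hcard, hrg _, zero3_no l.2.1 _⟩
  · intro s T w ar op θ val o τ htop hmon hT hval hsize hfree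
    have hbits : ∀ y : Fin M → Set (Vw (2 ^ h) k),
        (fun z : ℤ => decide (z ∈ setW y)) = Es (locW (2 ^ h) k M) y := fun y => setW_bits y
    have hBH : BlockHard (s + ∑ i ∈ T, w i)
        (blkerr h C0 (2 ^ k) ((s + ∑ i ∈ T, w i : ℕ) : ℝ)) sp sn := by
      intro B hB L hL hlen g' hg' τ'
      have h1 := hblk κ k hk B hB L hL g' hg' τ'
      refine h1.trans ?_
      apply add_le_add_right
      have hlenR : (L.length : ℝ) ≤ ((s + ∑ i ∈ T, w i : ℕ) : ℝ) := by exact_mod_cast hlen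
      unfold blkerr
      push_cast at hlenR ⊢
      gcongr
    have h2 := avg_chain (V := Vw (2 ^ h) k) hBH hM (locW (2 ^ h) k M) htop hmon hT hval le_rfl o τ
    simp only [hbits]
    refine le_trans h2 ?_
    rw [add_assoc]
    apply add_le_add_right
    refine le_trans ?_ herr
    apply add_le_add
    · exact div_le_div_of_nonneg_right hfree (Nat.cast_nonneg _)
    · unfold blkerr
      gcongr

end Pool.Agent.K9h36.MZ
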